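import Pool.Agent.Helper98.TQ.Defs

/-!
# TOWERS, quadric cones: density of the points of the quadric cones
-/

set_option autoImplicit false

namespace Pool.Agent.Helper33.TQ

open MvPolynomial Pool.Agent.Helper49.QU Pool.Agent.Helper65.TW
open Pool.Agent.Helper83.QM (Iso Rk3)
open Pool.Agent.Helper98.TQ

/-- a point over the generic point of `Spec R` at which a given element does not vanish -/
theorem exists_generic_point {R T : Type} [CommRing R] [IsDomain R] [CommRing T] [Algebra R T]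
    (b : T) (hb : b ∉ tors R T) :
    ∃ (Ω : Type) (_ : Field Ω) (π : T →+* Ω), π b ≠ 0 ∧
      ∀ r : R, r ≠ 0 → π (algebraMap R T r) ≠ 0 := by
  classical
  let S : Submonoid T :=
    { carrier := {x | ∃ (r : R) (k : ℕ), r ≠ 0 ∧ x = algebraMap R T r * b ^ k}
      one_mem' := ⟨1, 0, one_ne_zero, by rw [map_one, pow_zero, mul_one]⟩
      mul_mem' := by
        rintro _ _ ⟨r, k, hr, rfl⟩ ⟨s, l, hs, rfl⟩
        refine ⟨r * s, k + l, mul_ne_zero hr hs, ?_⟩
        rw [map_mul, pow_add]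
        ring }
  have hS0 : (0 : T) ∉ S := by
    rintro ⟨r, k, hr, h0⟩
    apply hb
    refine ⟨r, hr, k + 1, ?_⟩
    rw [Algebra.smul_def, mul_pow, pow_succ b k, pow_succ (algebraMap R T r) k]
    calc algebraMap R T r ^ k * algebraMap R T r * (b ^ k * b) =
        algebraMap R T r ^ k * b * (algebraMap R T r * b ^ k) := by ring
      _ = 0 := by rw [← h0, mul_zero]
  have hd : Disjoint ((⊥ : Ideal T) : Set T) (S : Set T) := by
    rw [Set.disjoint_left]
    intro x hx hxS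
    have hx0 : x = 0 := by simpa using hx
    exact hS0 (hx0 ▸ hxS)
  obtain ⟨p, hp, -, hdp⟩ := Ideal.exists_le_prime_disjoint ⊥ S hd
  haveI := hp
  have hπ : ∀ x ∈ S, (algebraMap (T ⧸ p) (FractionRing (T ⧸ p))) (Ideal.Quotient.mk p x) ≠ 0 := by
    intro x hx h0
    have h1 : Ideal.Quotient.mk p x = 0 := by
      apply IsFractionRing.injective (T ⧸ p) (FractionRing (T ⧸ p))
      rw [map_zero]
      exact h0
    exact (Set.disjoint_left.1 hdp) (Ideal.Quotient.eq_zero_iff_mem.1 h1) hx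
  refine ⟨FractionRing (T ⧸ p), inferInstance,
    (algebraMap (T ⧸ p) (FractionRing (T ⧸ p))).comp (Ideal.Quotient.mk p), ?_, ?_⟩
  · exact hπ b ⟨1, 1, one_ne_zero, by rw [map_one, pow_one, one_mul]⟩
  · intro r hr
    exact hπ _ ⟨r, 0, hr, by rw [pow_zero, mul_one]⟩

/-- **TQ5.** -/
theorem quad_density {K R : Type} [Field K] [CharZero K] [CommRing R] [IsDomain R] [Algebra K R]
    {N : ℕ} (q : Matrix (Fin N) (Fin N) R) (hq : q.IsSymm) (hr : Mi q ≠ ⊥)
    (L : Type) [Field L] [CharZero L] [Algebra K L] (Good : (R →ₐ[K] L) → Prop)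
    (hpt : ∀ f : R, f ≠ 0 → ∃ φ : R →ₐ[K] L, φ f ≠ 0 ∧ Good φ ∧ Iso (q.map φ))
    (c : MvPolynomial (Fin N) R) (hc : Ideal.Quotient.mk (qI q) c ∉ tors R (QA q))
    (f : R) (hf : f ≠ 0) :
    ∃ φ : R →ₐ[K] L, Good φ ∧ φ f ≠ 0 ∧ ∃ y : Fin N → L, bil (q.map φ) y y = 0 ∧
      eval₂ (φ : R →+* L) y c ≠ 0 := by
  classical
  haveI : CharZero R := charZero_of_injective_algebraMap (algebraMap K R).injective
  -- a minor which is not zero
  obtain ⟨s, t, hst⟩ : ∃ s t : Fin 3 → Fin N, (q.submatrix s t).det ≠ 0 := by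
    by_contra hcon
    push Not at hcon
    apply hr
    unfold Mi
    rw [Ideal.span_eq_bot]
    rintro _ ⟨⟨s, t⟩, rfl⟩
    exact hcon s t
  obtain ⟨c0, hc0⟩ := Pool.Agent.Helper83.QM.exists_aniso q hq ⟨s, t, hst⟩
  obtain ⟨Ω, _, π, hπc, hπ⟩ := exists_generic_point (Ideal.Quotient.mk (qI q) c) hc
  have hcomp : ∀ d : MvPolynomial (Fin N) R,
      eval₂ (π.comp (algebraMap R (QA q))) (fun j => π (Ideal.Quotient.mk (qI q) (X j))) d =
        π (Ideal.Quotient.mk (qI q) d) := by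
    intro d
    have h3 : eval₂Hom (π.comp (algebraMap R (QA q)))
        (fun j => π (Ideal.Quotient.mk (qI q) (X j))) = π.comp (Ideal.Quotient.mk (qI q)) := by
      refine MvPolynomial.ringHom_ext (fun a => ?_) (fun j => ?_)
      · rw [coe_eval₂Hom, eval₂_C]
        rfl
      · rw [coe_eval₂Hom, eval₂_X]
        rfl
    exact congrArg (fun g : MvPolynomial (Fin N) R →+* Ω => g d) h3
  have hquad : bil (q.map (π.comp (algebraMap R (QA q))))
      (fun j => π (Ideal.Quotient.mk (qI q) (X j)))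
      (fun j => π (Ideal.Quotient.mk (qI q) (X j))) = 0 := by
    have h1 := hcomp (∑ j, ∑ k, MvPolynomial.C (q j k) * MvPolynomial.X j * MvPolynomial.X k)
    have h2 : Ideal.Quotient.mk (qI q) (∑ j, ∑ k, MvPolynomial.C (q j k) * MvPolynomial.X j *
        MvPolynomial.X k) = 0 := Ideal.Quotient.eq_zero_iff_mem.2 (Ideal.subset_span rfl)
    rw [h2, map_zero] at h1
    rw [← h1, eval₂_sum]
    unfold bil
    refine Finset.sum_congr rfl fun j _ => ?_
    rw [eval₂_sum]
    refine Finset.sum_congr rfl fun k _ => ?_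
    rw [eval₂_mul, eval₂_mul, eval₂_C, eval₂_X, eval₂_X, Matrix.map_apply]
    ring
  obtain ⟨g, hg, hel⟩ := Pool.Agent.Helper83.QM.elim q hq c0 c
    (π.comp (algebraMap R (QA q))) (hπ _ hc0) _ hquad (by rw [hcomp]; exact hπc)
  have hg0 : g ≠ 0 := by
    rintro rfl
    exact hg (map_zero _)
  obtain ⟨φ, hφ, hgood, hiso⟩ := hpt (f * g * (q.submatrix s t).det)
    (mul_ne_zero (mul_ne_zero hf hg0) hst)
  rw [map_mul, map_mul] at hφ
  have hφf : φ f ≠ 0 := left_ne_zero_of_mul (left_ne_zero_of_mul hφ)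
  have hφg : φ g ≠ 0 := right_ne_zero_of_mul (left_ne_zero_of_mul hφ)
  have hφd : φ (q.submatrix s t).det ≠ 0 := right_ne_zero_of_mul hφ
  have hrk : Rk3 (q.map φ) := by
    refine ⟨s, t, ?_⟩
    have h1 : (q.map φ).submatrix s t = φ.mapMatrix (q.submatrix s t) := rfl
    rw [h1, ← AlgHom.map_det]
    exact hφd
  obtain ⟨y, hy, hyc⟩ := hel L (φ : R →+* L) hφg hrk hiso
  exact ⟨φ, hgood, hφf, y, hy, hyc⟩

end Pool.Agent.Helper33.TQ
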